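import Mathlib
import Pool.Agent.H419R2.A1

/-!
# Equivalent binary forms attached to distinct indecomposable integers
-/

set_option autoImplicit false

namespace Pool.Agent.Results.MP_d6b6f7_nt.EquivalentForms

open NumberField

variable {K : Type*} [Field K] [NumberField K]

/-- a totally positive integer of a totally real field (all embeddings of `K` in question are real) -/
def TotPos (γ : 𝓞 K) : Prop := ∀ s : K →+* ℝ, 0 < s γ

/-- an indecomposable integer -/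
def Indecomposable (α : 𝓞 K) : Prop :=
  TotPos α ∧ ¬ ∃ β γ : 𝓞 K, TotPos β ∧ TotPos γ ∧ α = β + γ

/-- the conjugate `γ'` of an integer under the automorphism `σ` -/
def conj (σ : K ≃ₐ[ℚ] K) (γ : 𝓞 K) : 𝓞 K := RingOfIntegers.mapRingHom (σ : K →+* K) γ

/-- two integers are associated if they differ by a unit -/
def Assoc (α β : 𝓞 K) : Prop := ∃ ε : (𝓞 K)ˣ, α = ε * β

/-- the admissible pairs -/
def Admissible (σ : K ≃ₐ[ℚ] K) (α β : 𝓞 K) : Prop :=
  Indecomposable α ∧ Indecomposable β ∧ ¬ Assoc β α ∧ ¬ Assoc β (conj σ α) ∧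
    ∀ η : 𝓞 K, β ≠ α * η ^ 2 ∧ β ≠ conj σ α * η ^ 2 ∧ α ≠ β * η ^ 2 ∧ α ≠ conj σ β * η ^ 2

/-- the binary form `Q_{α,m}` -/
def Q (σ : K ≃ₐ[ℚ] K) (α : 𝓞 K) (m : ℤ) (x y : 𝓞 K) : 𝓞 K :=
  α * x ^ 2 + 2 * m * x * y + conj σ α * y ^ 2

/-- equivalence of binary forms over the ring of integers -/
def Equivalent (F G : 𝓞 K → 𝓞 K → 𝓞 K) : Prop :=
  ∃ p q r s : 𝓞 K, IsUnit (p * s - q * r) ∧ ∀ x y, G x y = F (p * x + q * y) (r * x + s * y)

/-- The field `ℚ(√41)`. -/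
noncomputable abbrev K41 : IntermediateField ℚ ℝ := IntermediateField.adjoin ℚ {√(41 : ℝ)}

lemma sq41 : (√(41 : ℝ)) ^ 2 = 41 := Real.sq_sqrt (by norm_num)

lemma no_sqrt : ¬ ∃ q : ℚ, q ^ 2 = (41 : ℤ) :=
  H419R2.not_sq_of_squarefree (D := 41) (by
    have : Prime (41 : ℤ) := by norm_num
    exact this.squarefree) (by norm_num)

lemma irr : Irreducible (Polynomial.X ^ 2 - Polynomial.C 41 : Polynomial ℚ) := by
  apply X_pow_sub_C_irreducible_of_prime Nat.prime_two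
  intro b hb
  exact no_sqrt ⟨b, by rw [hb]; norm_num⟩

lemma minpoly41 : minpoly ℚ (√(41 : ℝ)) = Polynomial.X ^ 2 - Polynomial.C 41 := by
  symm
  apply minpoly.eq_of_irreducible_of_monic irr
  · simp only [map_sub, map_pow, Polynomial.aeval_X, Polynomial.aeval_C, sq41]
    norm_num
  · exact Polynomial.monic_X_pow_sub_C _ (by norm_num)

lemma int41 : IsIntegral ℚ (√(41 : ℝ)) :=
  ⟨Polynomial.X ^ 2 - Polynomial.C 41, Polynomial.monic_X_pow_sub_C _ (by norm_num), by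
    simp⟩

instance : FiniteDimensional ℚ K41 := IntermediateField.adjoin.finiteDimensional int41

instance : NumberField K41 where
  to_charZero := inferInstance
  to_finiteDimensional := inferInstance

lemma finrank41 : Module.finrank ℚ K41 = 2 := by
  rw [IntermediateField.adjoin.finrank int41, minpoly41, Polynomial.natDegree_X_pow_sub_C]

/-- the square root of 41 in the field -/
noncomputable def r41 : K41 := ⟨√(41 : ℝ), IntermediateField.mem_adjoin_simple_self ℚ _⟩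

lemma r41_sq : r41 ^ 2 = 41 := by
  apply Subtype.ext
  show (√(41 : ℝ)) ^ 2 = ((41 : K41) : ℝ)
  rw [sq41]
  rfl

section general

variable {K : Type*} [Field K] [NumberField K]

/-- conjugation on the ring of integers of a quadratic field -/
lemma exists_conj (hK : Module.finrank ℚ K = 2) : ∃ σ : K ≃ₐ[ℚ] K, σ ≠ 1 := by
  have : Algebra.IsQuadraticExtension ℚ K := ⟨hK⟩
  have h1 : Nat.card (K ≃ₐ[ℚ] K) = 2 := by
    rw [IsGalois.card_aut_eq_finrank, hK]
  by_contra hcon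
  push Not at hcon
  have : Subsingleton (K ≃ₐ[ℚ] K) := ⟨fun a b => by rw [hcon a, hcon b]⟩
  have h2 := Finite.card_le_one_iff_subsingleton.mpr this
  omega

lemma conj_root (hK : Module.finrank ℚ K = 2) {x : K} (hx : x ^ 2 = 41) (σ : K ≃ₐ[ℚ] K)
    (hσ : σ ≠ 1) : σ x = -x := by
  have h1 : (σ x) ^ 2 = x ^ 2 := by rw [← map_pow, hx, map_ofNat]
  rcases sq_eq_sq_iff_eq_or_eq_neg.mp h1 with h | h
  · exfalso
    apply hσ
    ext y
    obtain ⟨p, q, rfl⟩ := H419R2.exists_coords no_sqrt hK (x := x) (by rw [hx]; norm_num) y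
    simp [h]
  · exact h

/-- real embeddings of both signs -/
lemma exists_embedding (hK : Module.finrank ℚ K = 2) {x : K} (hx : x ^ 2 = 41) (s : K →+* ℝ) :
    (∃ s : K →+* ℝ, s x = √41) ∧ (∃ s : K →+* ℝ, s x = -√41) := by
  have h1 : (s x) ^ 2 = (√41) ^ 2 := by rw [← map_pow, hx, sq41, map_ofNat]
  obtain ⟨σ, hσ⟩ := exists_conj hK
  have h2 := conj_root hK hx σ hσ
  rcases sq_eq_sq_iff_eq_or_eq_neg.mp h1 with h | h
  · exact ⟨⟨s, h⟩, ⟨s.comp (σ : K →+* K), by simp [h2, h]⟩⟩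
  · exact ⟨⟨s.comp (σ : K →+* K), by simp [h2, h]⟩, ⟨s, h⟩⟩

/-- coordinates of totally positive integers -/
lemma totPos_iff (hK : Module.finrank ℚ K = 2) {x : K} (hx : x ^ 2 = 41) (s : K →+* ℝ)
    (γ : 𝓞 K) (u w : ℤ) (hγ : (γ : K) = u + w * ((1 + x) / 2)) :
    TotPos γ ↔ 0 < 2 * u + w ∧ 41 * w ^ 2 < (2 * u + w) ^ 2 := by
  have key : ∀ s : K →+* ℝ, s γ = ((2 * u + w : ℤ) : ℝ) / 2 + (w : ℝ) / 2 * s x := by
    intro s
    rw [hγ]
    simp only [map_add, map_mul, map_div₀, map_one, map_intCast, map_ofNat]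
    push_cast
    ring
  have h41 := sq41
  have h0 : (0 : ℝ) < √41 := Real.sqrt_pos.mpr (by norm_num)
  constructor
  · intro h
    obtain ⟨⟨s1, hs1⟩, ⟨s2, hs2⟩⟩ := exists_embedding hK hx s
    have h1 := h s1
    have h2 := h s2
    rw [key, hs1] at h1
    rw [key, hs2] at h2
    have h3 : (0 : ℝ) < ((2 * u + w : ℤ) : ℝ) := by linarith
    refine ⟨by exact_mod_cast h3, ?_⟩
    have h4 : (41 : ℝ) * (w : ℝ) ^ 2 < ((2 * u + w : ℤ) : ℝ) ^ 2 := by
      have h5 : 0 < (((2 * u + w : ℤ) : ℝ) / 2 + (w : ℝ) / 2 * √41) *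
        (((2 * u + w : ℤ) : ℝ) / 2 + (w : ℝ) / 2 * -√41) := mul_pos h1 h2
      nlinarith
    exact_mod_cast h4
  · rintro ⟨h1, h2⟩ t
    rw [key]
    have h3 : (t x) ^ 2 = 41 := by rw [← map_pow, hx, map_ofNat]
    have h1' : (0 : ℝ) < ((2 * u + w : ℤ) : ℝ) := by exact_mod_cast h1
    have h2' : (41 : ℝ) * (w : ℝ) ^ 2 < ((2 * u + w : ℤ) : ℝ) ^ 2 := by exact_mod_cast h2
    have h4 : ((w : ℝ) * t x) ^ 2 < ((2 * u + w : ℤ) : ℝ) ^ 2 := by
      rw [mul_pow, h3]
      linarith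
    have h5 := abs_lt_of_sq_lt_sq h4 h1'.le
    have h6 := (abs_lt.mp h5).1
    linarith

lemma indec_aux (A : ℕ) (W : ℤ) (hcheck : ∀ a ∈ Finset.range (A + 1), ∀ w ∈ Finset.range (W.toNat + 1),
      ¬ (41 * (w : ℤ) ^ 2 < (a : ℤ) ^ 2 ∧ 41 * (W - w) ^ 2 < ((A : ℤ) - a) ^ 2 ∧
        ((a : ℤ) - w) % 2 = 0)) (hW : 0 ≤ W) (hAW : (A : ℤ) ^ 2 < 41 * (W + 1) ^ 2)
    (u1 w1 u2 w2 : ℤ) (h1 : 0 < 2 * u1 + w1) (h2 : 41 * w1 ^ 2 < (2 * u1 + w1) ^ 2)
    (h3 : 0 < 2 * u2 + w2) (h4 : 41 * w2 ^ 2 < (2 * u2 + w2) ^ 2)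
    (hsum : 2 * u1 + w1 + (2 * u2 + w2) = A) (hw : w1 + w2 = W) : False := by
  -- the second coordinates are nonnegative
  have key : ∀ u1 w1 u2 w2 : ℤ, 0 < 2 * u1 + w1 → 41 * w1 ^ 2 < (2 * u1 + w1) ^ 2 →
      0 < 2 * u2 + w2 → 41 * w2 ^ 2 < (2 * u2 + w2) ^ 2 →
      2 * u1 + w1 + (2 * u2 + w2) = A → w1 + w2 = W → 0 ≤ w1 := by
    intro u1 w1 u2 w2 h1 h2 h3 h4 hsum hw
    by_contra hneg
    have h5 : W + 1 ≤ w2 := by omega
    have h6 : (2 * u2 + w2) < A := by omega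
    have h7 : (2 * u2 + w2) ^ 2 < (A : ℤ) ^ 2 := by
      apply pow_lt_pow_left₀ h6 h3.le (by norm_num)
    have h8 : (W + 1) ^ 2 ≤ w2 ^ 2 := pow_le_pow_left₀ (by omega) h5 2
    nlinarith
  have hw1 := key u1 w1 u2 w2 h1 h2 h3 h4 hsum hw
  have hw2 := key u2 w2 u1 w1 h3 h4 h1 h2 (by omega) (by omega)
  obtain ⟨a, ha⟩ := Int.eq_ofNat_of_zero_le h1.le
  obtain ⟨w, hw'⟩ := Int.eq_ofNat_of_zero_le hw1
  apply hcheck a (Finset.mem_range.mpr (by omega)) w (Finset.mem_range.mpr (by omega))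
  refine ⟨?_, ?_, ?_⟩
  · rw [← ha, ← hw']
    exact h2
  · have e1 : W - (w : ℤ) = w2 := by omega
    have e2 : (A : ℤ) - (a : ℤ) = 2 * u2 + w2 := by omega
    rw [e1, e2]
    exact h4
  · rw [← ha, ← hw']
    omega

lemma indec (hK : Module.finrank ℚ K = 2) {x : K} (hx : x ^ 2 = 41) (s : K →+* ℝ)
    (A : ℕ) (W : ℤ) (hcheck : ∀ a ∈ Finset.range (A + 1), ∀ w ∈ Finset.range (W.toNat + 1),
      ¬ (41 * (w : ℤ) ^ 2 < (a : ℤ) ^ 2 ∧ 41 * (W - w) ^ 2 < ((A : ℤ) - a) ^ 2 ∧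
        ((a : ℤ) - w) % 2 = 0)) (hW : 0 ≤ W) (hAW : (A : ℤ) ^ 2 < 41 * (W + 1) ^ 2)
    (hpos : 0 < A) (hA : 41 * W ^ 2 < (A : ℤ) ^ 2)
    (γ : 𝓞 K) (u : ℤ) (hγ : (γ : K) = u + W * ((1 + x) / 2)) (hu : 2 * u + W = A) :
    Indecomposable γ := by
  constructor
  · rw [totPos_iff hK hx s γ u W hγ, hu]
    exact ⟨by exact_mod_cast hpos, hA⟩
  · rintro ⟨β, δ, hβ, hδ, hsum⟩
    obtain ⟨u1, w1, h1⟩ := H419R2.integral_coords (m := 1) (R := 10) (D := 41) (by norm_num)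
      (by norm_num) ((by norm_num : Prime (41 : ℤ)).squarefree) (by norm_num) hK
      (x := x) (by rw [hx]; norm_num) β.isIntegral_coe
    obtain ⟨u2, w2, h2⟩ := H419R2.integral_coords (m := 1) (R := 10) (D := 41) (by norm_num)
      (by norm_num) ((by norm_num : Prime (41 : ℤ)).squarefree) (by norm_num) hK
      (x := x) (by rw [hx]; norm_num) δ.isIntegral_coe
    have h1' : (β : K) = u1 + w1 * ((1 + x) / 2) :=
      Eq.trans h1 (by push_cast; ring)
    have h2' : (δ : K) = u2 + w2 * ((1 + x) / 2) :=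
      Eq.trans h2 (by push_cast; ring)
    have h3 := (totPos_iff hK hx s β u1 w1 h1').mp hβ
    have h4 := (totPos_iff hK hx s δ u2 w2 h2').mp hδ
    -- compare coordinates
    have h5 : (γ : K) = (β : K) + (δ : K) := by rw [hsum]; rfl
    rw [hγ, h1', h2'] at h5
    have h6 : ((2 * u + W - (2 * u1 + w1 + (2 * u2 + w2)) : ℤ) : K) =
        ((w1 + w2 - W : ℤ) : K) * x := by
      push_cast
      linear_combination 2 * h5
    have h7 : w1 + w2 - W = 0 := by
      by_contra hne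
      apply no_sqrt
      have hne' : ((w1 + w2 - W : ℤ) : K) ≠ 0 := by exact_mod_cast hne
      refine ⟨((2 * u + W - (2 * u1 + w1 + (2 * u2 + w2)) : ℤ) : ℚ) / ((w1 + w2 - W : ℤ) : ℚ), ?_⟩
      have h8 : (((2 * u + W - (2 * u1 + w1 + (2 * u2 + w2)) : ℤ) : ℚ) / ((w1 + w2 - W : ℤ) : ℚ) : ℚ) = x := by
        rw [Rat.cast_div, Rat.cast_intCast, Rat.cast_intCast, h6]
        field_simp
      have h9 : (((((2 * u + W - (2 * u1 + w1 + (2 * u2 + w2)) : ℤ) : ℚ) / ((w1 + w2 - W : ℤ) : ℚ)) ^ 2 : ℚ) : K)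
          = ((41 : ℚ) : K) := by
        rw [Rat.cast_pow, h8, hx]
        norm_num
      have h10 := Rat.cast_injective h9
      rw [h10]
      norm_num
    rw [h7, Int.cast_zero, zero_mul] at h6
    have h8 : 2 * u + W - (2 * u1 + w1 + (2 * u2 + w2)) = 0 := by exact_mod_cast h6
    exact indec_aux A W hcheck hW hAW u1 w1 u2 w2 h3.1 h3.2 h4.1 h4.2 (by omega) (by omega)

/-- the norm is the product with the conjugate -/
lemma norm_eq (hK : Module.finrank ℚ K = 2) {σ : K ≃ₐ[ℚ] K} (hσ : σ ≠ 1) (γ : 𝓞 K) :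
    (Algebra.norm ℤ γ : 𝓞 K) = γ * conj σ γ := by
  classical
  have : Algebra.IsQuadraticExtension ℚ K := ⟨hK⟩
  have h1 : Fintype.card (K ≃ₐ[ℚ] K) = 2 := by
    rw [← Nat.card_eq_fintype_card, IsGalois.card_aut_eq_finrank, hK]
  have huniv : (Finset.univ : Finset (K ≃ₐ[ℚ] K)) = {1, σ} := by
    symm
    apply Finset.eq_univ_of_card
    rw [h1, Finset.card_pair (Ne.symm hσ)]
  have h2 := Algebra.norm_eq_prod_automorphisms ℚ (γ : K)
  rw [huniv, Finset.prod_pair (Ne.symm hσ)] at h2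
  apply RingOfIntegers.coe_injective
  have h3 : (Algebra.norm ℤ γ : ℚ) = Algebra.norm ℚ (γ : K) := Algebra.coe_norm_int γ
  have h4 : (((Algebra.norm ℤ γ : ℤ) : 𝓞 K) : K) = algebraMap ℚ K (Algebra.norm ℚ (γ : K)) := by
    rw [← h3]
    simp
  rw [← RingOfIntegers.coe_eq_algebraMap, h4, h2]
  rfl

end general

/-- **The forms can be equivalent.** There are a real quadratic field `K` with nontrivial
automorphism `σ`, an admissible pair `(α, β)` and nonzero integers `m`, `n` with `m ^ 2 < N(α)` and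
`n ^ 2 < N(β)` such that the forms `Q_{α,m}` and `Q_{β,n}` are equivalent over the ring of
integers. -/
theorem result : ∃ (K : Type) (_ : Field K) (_ : NumberField K) (σ : K ≃ₐ[ℚ] K),
    Module.finrank ℚ K = 2 ∧ Nonempty (K →+* ℝ) ∧ σ ≠ 1 ∧
    ∃ (α β : 𝓞 K) (m n : ℤ), Admissible σ α β ∧ m ≠ 0 ∧ n ≠ 0 ∧
      m ^ 2 < Algebra.norm ℤ α ∧ n ^ 2 < Algebra.norm ℤ β ∧ Equivalent (Q σ α m) (Q σ β n) := by
  have hK := finrank41
  obtain ⟨σ, hσ⟩ := exists_conj hK
  have hx := r41_sq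
  have hσx := conj_root hK hx σ hσ
  let s : K41 →+* ℝ := algebraMap K41 ℝ
  refine ⟨K41, inferInstance, inferInstance, σ, hK, ⟨s⟩, hσ, ?_⟩
  -- the integer `ω`
  have hωint : IsIntegral ℤ (((1 : K41) + r41) / 2) := by
    refine ⟨Polynomial.X ^ 2 - Polynomial.X - Polynomial.C 10, by monicity!, ?_⟩
    simp only [Polynomial.eval₂_sub, Polynomial.eval₂_pow, Polynomial.eval₂_X, Polynomial.eval₂_C]
    rw [map_ofNat]
    field_simp
    linear_combination hx
  let ω : 𝓞 K41 := ⟨((1 : K41) + r41) / 2, hωint⟩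
  have hωc : (ω : K41) = ((1 : K41) + r41) / 2 := rfl
  have hω : ω ^ 2 - ω - 10 = 0 := by
    apply RingOfIntegers.coe_injective
    simp only [map_sub, map_pow, map_ofNat, map_zero]
    rw [← RingOfIntegers.coe_eq_algebraMap, hωc]
    field_simp
    linear_combination hx
  have hσω : conj σ ω = 1 - ω := by
    apply RingOfIntegers.coe_injective
    show σ (ω : K41) = (((1 - ω : 𝓞 K41)) : K41)
    have h1 : (((1 - ω : 𝓞 K41)) : K41) = 1 - (ω : K41) := by simp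
    rw [h1, hωc, map_div₀, map_add, map_one, hσx, map_ofNat]
    field_simp
    ring
  set α : 𝓞 K41 := 11 + 4 * ω with hα
  set β : 𝓞 K41 := 73 + 27 * ω with hβ
  have hα' : conj σ α = 15 - 4 * ω := by
    have : conj σ α = 11 + 4 * conj σ ω := by
      simp only [conj, hα, map_add, map_mul, map_ofNat]
    rw [this, hσω]
    ring
  have hβ' : conj σ β = 100 - 27 * ω := by
    have : conj σ β = 73 + 27 * conj σ ω := by
      simp only [conj, hβ, map_add, map_mul, map_ofNat]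
    rw [this, hσω]
    ring
  have hnorm : ∀ γ : 𝓞 K41, (Algebra.norm ℤ γ : 𝓞 K41) = γ * conj σ γ := norm_eq hK hσ
  have hNα : Algebra.norm ℤ α = 5 := by
    have h1 := hnorm α
    rw [hα'] at h1
    have h2 : ((Algebra.norm ℤ α : ℤ) : 𝓞 K41) = ((5 : ℤ) : 𝓞 K41) := by
      rw [h1, hα]
      push_cast
      linear_combination (-16) * hω
    exact_mod_cast h2
  have hNβ : Algebra.norm ℤ β = 10 := by
    have h1 := hnorm β
    rw [hβ'] at h1
    have h2 : ((Algebra.norm ℤ β : ℤ) : 𝓞 K41) = ((10 : ℤ) : 𝓞 K41) := by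
      rw [h1, hβ]
      push_cast
      linear_combination (-729) * hω
    exact_mod_cast h2
  have hNα' : Algebra.norm ℤ (conj σ α) = 5 := by
    have h1 := hnorm (conj σ α)
    have h3 : conj σ (15 - 4 * ω) = 11 + 4 * ω := by
      have : conj σ (15 - 4 * ω) = 15 - 4 * conj σ ω := by
        simp only [conj, map_sub, map_mul, map_ofNat]
      rw [this, hσω]
      ring
    rw [hα', h3] at h1
    have h2 : ((Algebra.norm ℤ (15 - 4 * ω) : ℤ) : 𝓞 K41) = ((5 : ℤ) : 𝓞 K41) := by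
      rw [h1]
      push_cast
      linear_combination (-16) * hω
    rw [hα']
    exact_mod_cast h2
  have hNβ' : Algebra.norm ℤ (conj σ β) = 10 := by
    have h1 := hnorm (conj σ β)
    have h3 : conj σ (100 - 27 * ω) = 73 + 27 * ω := by
      have : conj σ (100 - 27 * ω) = 100 - 27 * conj σ ω := by
        simp only [conj, map_sub, map_mul, map_ofNat]
      rw [this, hσω]
      ring
    rw [hβ', h3] at h1
    have h2 : ((Algebra.norm ℤ (100 - 27 * ω) : ℤ) : 𝓞 K41) = ((10 : ℤ) : 𝓞 K41) := by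
      rw [h1]
      push_cast
      linear_combination (-729) * hω
    rw [hβ']
    exact_mod_cast h2
  refine ⟨α, β, 2, 3, ⟨?_, ?_, ?_, ?_, ?_⟩, by norm_num, by norm_num, by rw [hNα]; norm_num,
    by rw [hNβ]; norm_num, ?_⟩
  · apply indec hK hx s 26 4 (by decide) (by norm_num) (by norm_num) (by norm_num) (by norm_num) α 11
    · rw [hα]
      simp [hωc, map_ofNat]
    · norm_num
  · apply indec hK hx s 173 27 (by decide +kernel) (by norm_num) (by norm_num) (by norm_num)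
      (by norm_num) β 73
    · rw [hβ]
      simp [hωc, map_ofNat]
    · norm_num
  · rintro ⟨ε, hε⟩
    have h1 := congrArg (Algebra.norm ℤ) hε
    rw [map_mul, hNα, hNβ] at h1
    rcases Int.isUnit_iff.mp (ε.isUnit.map (Algebra.norm ℤ)) with h | h <;> rw [h] at h1 <;>
      norm_num at h1
  · rintro ⟨ε, hε⟩
    have h1 := congrArg (Algebra.norm ℤ) hε
    rw [map_mul, hNα', hNβ] at h1
    rcases Int.isUnit_iff.mp (ε.isUnit.map (Algebra.norm ℤ)) with h | h <;> rw [h] at h1 <;>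
      norm_num at h1
  · intro η
    have h2 : ∀ z : ℤ, z ^ 2 ≠ 2 := by
      intro z hz
      have h3 : z < 2 := by nlinarith
      have h4 : -2 < z := by nlinarith
      interval_cases z <;> norm_num at hz
    refine ⟨fun h => ?_, fun h => ?_, fun h => ?_, fun h => ?_⟩
    · have h1 := congrArg (Algebra.norm ℤ) h
      rw [map_mul, map_pow, hNα, hNβ] at h1
      exact h2 (Algebra.norm ℤ η) (by linarith)
    · have h1 := congrArg (Algebra.norm ℤ) h
      rw [map_mul, map_pow, hNα', hNβ] at h1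
      exact h2 (Algebra.norm ℤ η) (by linarith)
    · have h1 := congrArg (Algebra.norm ℤ) h
      rw [map_mul, map_pow, hNα, hNβ] at h1
      omega
    · have h1 := congrArg (Algebra.norm ℤ) h
      rw [map_mul, map_pow, hNα, hNβ'] at h1
      omega
  · refine ⟨-1, -37 + 10 * ω, -8 - 3 * ω, 3 - ω, ?_, ?_⟩
    · have : (-1 : 𝓞 K41) * (3 - ω) - (-37 + 10 * ω) * (-8 - 3 * ω) = 1 := by
        linear_combination (30 : 𝓞 K41) * hω
      rw [this]
      exact isUnit_one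
    · intro x y
      simp only [Q]
      rw [hα', hβ', hα, hβ]
      push_cast
      linear_combination (-(-93 - 36 * ω) * x ^ 2 - 2 * (-63 - 12 * ω) * x * y -
        (-1465 + 396 * ω) * y ^ 2) * hω

end Pool.Agent.Results.MP_d6b6f7_nt.EquivalentForms
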